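import Pool.Agent.Run7.h429.UM.Q2a
import Pool.Agent.Run7.h759.UM.Iface2

/-!
# UM, piece Q2 (helper429)
-/

set_option autoImplicit false

namespace Pool.Agent.Run7.h429.UM

open Subgroup Pool.Agent.Q60.MU Pool.Agent.Run7.h759.UM
open Pool.Agent.Run7.h594.UM (comm_mem_of_gens pow_mem_of_gens normal_of_gens)
open scoped commutatorElement

variable {𝔾 : Type} [Group 𝔾]

theorem pow_conj_form {K K' : Subgroup 𝔾} (hn : ∀ g ∈ K, ∀ x ∈ K', g * x * g⁻¹ ∈ K') {γ β : 𝔾}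
    (hγ : γ ∈ K) (hβ : β ∈ K') (k i : ℕ) : ∃ y ∈ K', (β * γ ^ k) ^ i = γ ^ (k * i) * y := by
  induction i with
  | zero => exact ⟨1, K'.one_mem, by simp⟩
  | succ i ih =>
    obtain ⟨y, hy, h1⟩ := ih
    refine ⟨(γ ^ k)⁻¹ * (y * β) * ((γ ^ k)⁻¹)⁻¹, hn _ (K.inv_mem (K.pow_mem hγ _)) _
      (K'.mul_mem hy hβ), ?_⟩
    rw [pow_succ, h1, mul_add, pow_add, mul_one]
    group

theorem index_cyc {p : ℕ} {KR K' : Subgroup 𝔾} {γ : 𝔾} {q s : ℕ} (hp : 0 < p)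
    (hq : γ ^ q ∈ KR) (hR : ∀ x ∈ KR, ∃ i : ℕ, ∃ κ ∈ K', x = γ ^ (q * i) * κ)
    (hs : γ ^ p ^ s ∈ K') (hn : ∀ x ∈ K', γ ^ q * x * (γ ^ q)⁻¹ ∈ K') : K'.relIndex KR ≠ 0 := by
  have hps : 0 < p ^ s := pow_pos hp s
  have hsur : Function.Surjective (fun i : Fin (p ^ s) =>
      (QuotientGroup.mk ((⟨γ ^ q, hq⟩ : KR) ^ (i : ℕ)) : KR ⧸ K'.subgroupOf KR)) := by
    intro z
    obtain ⟨x, rfl⟩ := QuotientGroup.mk_surjective z
    obtain ⟨j, κ, hκ, hx⟩ := hR x x.2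
    refine ⟨⟨j % p ^ s, Nat.mod_lt _ hps⟩, ?_⟩
    show (QuotientGroup.mk ((⟨γ ^ q, hq⟩ : KR) ^ (j % p ^ s)) : KR ⧸ K'.subgroupOf KR) = _
    rw [QuotientGroup.eq, mem_subgroupOf]
    push_cast
    rw [hx]
    have h1 : q * j = q * (j % p ^ s) + p ^ s * (q * (j / p ^ s)) := by
      conv_lhs => rw [← Nat.mod_add_div j (p ^ s)]
      ring
    have h2 : ((γ ^ q) ^ (j % p ^ s))⁻¹ * (γ ^ (q * j) * κ) =
        (γ ^ p ^ s) ^ (q * (j / p ^ s)) * κ := by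
      rw [h1, pow_add, pow_mul, pow_mul]
      group
    rw [h2]
    exact K'.mul_mem (K'.pow_mem hs _) hκ
  have hfin : Finite (KR ⧸ K'.subgroupOf KR) := Finite.of_surjective _ hsur
  exact index_ne_zero_of_finite

theorem t_Q2 : S_unit := by
  classical
  intro 𝔾 _ _ _ p hp Ω I K KR K' γ h n q₀ q C L hhn hpn hRel W hWK hWo hW0 hg hWh hWc hWf
  obtain ⟨V, _, _, φ, hφm, hφ0, hφs, hφG⟩ := setup p I K' W hWK hg
  obtain ⟨a, ha⟩ := L.pow₀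
  obtain ⟨b, hb⟩ := L.pow
  obtain ⟨s, hs⟩ := L.powK
  have hp1 : 1 < p := hp.out.one_lt
  have hab : a ≤ b := by
    have h1 := L.le
    rw [ha, hb] at h1
    exact (Nat.pow_le_pow_iff_right hp1).1 h1
  have hK'K : K' ≤ K := L.le1.trans L.le2
  have hqm : q₀ * p ^ (b - a) = q := by
    rw [ha, hb, ← pow_add]
    congr 1
    omega
  have hφ1 : φ 1 = 0 := (hφ0 1 K'.one_mem).2 W.one_mem
  have hφi : ∀ x ∈ K', φ x⁻¹ = -φ x := by
    intro x hx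
    have h1 := hφm x hx x⁻¹ (K'.inv_mem hx)
    rw [mul_inv_cancel, hφ1] at h1
    exact (neg_eq_of_add_eq_zero_right h1.symm).symm
  have hφW : ∀ x ∈ W, φ x = 0 := fun x hx => (hφ0 x (hWK hx)).2 hx
  have hKc : ∀ g ∈ K, ∀ x ∈ K', g * x * g⁻¹ ∈ K' := L.nK
  obtain ⟨Γ, hΓ⟩ := hφG γ (hKc γ L.memγ) (fun x hx => hWc γ L.memγ x hx)
  obtain ⟨H, hH⟩ := hφG h L.hK' hWh
  have hκ : ∀ κ ∈ K', ∀ x ∈ K', φ (κ * x * κ⁻¹) = φ x := by
    intro κ hκ x hx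
    rw [hφm _ (K'.mul_mem hκ hx) _ (K'.inv_mem hκ), hφm _ hκ _ hx, hφi _ hκ]
    abel
  have hΓi : ∀ i : ℕ, ∀ x ∈ K', φ (γ ^ i * x * (γ ^ i)⁻¹) = (Γ ^ i) (φ x) := by
    intro i
    induction i with
    | zero => intro x hx; simp
    | succ i ih =>
      intro x hx
      have h1 : γ ^ (i + 1) * x * (γ ^ (i + 1))⁻¹ = γ ^ i * (γ * x * γ⁻¹) * (γ ^ i)⁻¹ := by
        rw [pow_succ]
        group
      rw [h1, ih _ (hKc γ L.memγ x hx), hΓ x hx, pow_succ, Module.End.mul_apply]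
  have hHi : ∀ i : ℕ, ∀ x ∈ K', φ (h ^ i * x * (h ^ i)⁻¹) = (H ^ i) (φ x) := by
    intro i
    induction i with
    | zero => intro x hx; simp
    | succ i ih =>
      intro x hx
      have h1 : h ^ (i + 1) * x * (h ^ (i + 1))⁻¹ = h ^ i * (h * x * h⁻¹) * (h ^ i)⁻¹ := by
        rw [pow_succ]
        group
      rw [h1, ih _ (L.hK' x hx), hH x hx, pow_succ, Module.End.mul_apply]
  have hcomK : ∀ g ∈ K, ∀ x ∈ K', ⁅g, x⁆ ∈ K' := by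
    intro g hg' x hx
    rw [commutatorElement_def]
    exact K'.mul_mem (hKc g hg' x hx) (K'.inv_mem hx)
  obtain ⟨T, hTdef⟩ : ∃ T : Module.End (ZMod p) V, T = Γ - 1 := ⟨_, rfl⟩
  obtain ⟨e, he⟩ : ∃ e : ℕ, e = q - q₀ := ⟨_, rfl⟩
  have hT : ∀ x ∈ K', φ ⁅γ, x⁆ = T (φ x) := by
    intro x hx
    rw [commutatorElement_def, hφm _ (hKc γ L.memγ x hx) _ (K'.inv_mem hx), hΓ x hx, hφi x hx,
      hTdef, LinearMap.sub_apply, Module.End.one_apply]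
    abel
  have hTi : ∀ k : ℕ, ∀ y ∈ K', (fun z => ⁅γ, z⁆)^[k] y ∈ K' ∧
      φ ((fun z => ⁅γ, z⁆)^[k] y) = (T ^ k) (φ y) := by
    intro k
    induction k with
    | zero => intro y hy; exact ⟨hy, by simp⟩
    | succ k ih =>
      intro y hy
      rw [Function.iterate_succ_apply']
      refine ⟨hcomK γ L.memγ _ (ih y hy).1, ?_⟩
      rw [hT _ (ih y hy).1, (ih y hy).2, pow_succ', Module.End.mul_apply]
  have hΓT : ∀ i j : ℕ, Γ ^ i * T ^ j = T ^ j * Γ ^ i := by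
    intro i j
    have h1 : Commute Γ T := by
      rw [hTdef]
      exact (Commute.refl Γ).sub_right (Commute.one_right Γ)
    exact (h1.pow_pow i j).eq
  have hHΓ : H * Γ = Γ * H := by
    ext v
    obtain ⟨x, hx, rfl⟩ := hφs v
    rw [Module.End.mul_apply, Module.End.mul_apply, ← hΓ x hx, ← hH x hx,
      ← hH _ (hKc γ L.memγ x hx), ← hΓ _ (L.hK' x hx)]
    have h1 : h * (γ * x * γ⁻¹) * h⁻¹ = ⁅h, γ⁆ * (γ * (h * x * h⁻¹) * γ⁻¹) * ⁅h, γ⁆⁻¹ := by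
      rw [commutatorElement_def]
      group
    rw [h1, hκ _ L.comm _ (hKc γ L.memγ _ (L.hK' x hx))]
  have hHT : ∀ j : ℕ, H * T ^ j = T ^ j * H := by
    intro j
    have h1 : Commute H T := by
      rw [hTdef]
      exact Commute.sub_right hHΓ (Commute.one_right H)
    exact (h1.pow_right j).eq
  have hHn : H ^ n = 1 := by
    ext v
    obtain ⟨x, hx, rfl⟩ := hφs v
    rw [← hHi n x hx, hκ _ hhn _ hx]
    rfl
  have hHf : ∀ v, H v = v → v = 0 := by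
    intro v hv
    obtain ⟨x, hx, rfl⟩ := hφs v
    rw [← hH x hx] at hv
    refine hφW x (hWf x hx ?_)
    have h1 : ⁅h, x⁆ ∈ K' := by
      rw [commutatorElement_def]
      exact K'.mul_mem (L.hK' x hx) (K'.inv_mem hx)
    rw [← hφ0 _ h1, commutatorElement_def, hφm _ (L.hK' x hx) _ (K'.inv_mem hx), hφi x hx, hv]
    abel
  -- the group `We`
  let R : Submodule (ZMod p) V := LinearMap.range (T ^ e)
  have hRΓ : ∀ i : ℕ, ∀ v ∈ R, (Γ ^ i) v ∈ R := by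
    rintro i _ ⟨v, rfl⟩
    refine ⟨(Γ ^ i) v, ?_⟩
    rw [← Module.End.mul_apply, ← hΓT, Module.End.mul_apply]
  have hRH : ∀ v ∈ R, H v ∈ R := by
    rintro _ ⟨v, rfl⟩
    refine ⟨H v, ?_⟩
    rw [← Module.End.mul_apply, ← hHT, Module.End.mul_apply]
  let We : Subgroup 𝔾 :=
    { carrier := {x | x ∈ K' ∧ φ x ∈ R}
      one_mem' := ⟨K'.one_mem, by rw [hφ1]; exact R.zero_mem⟩
      mul_mem' := by
        rintro x y ⟨hx, hx'⟩ ⟨hy, hy'⟩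
        refine ⟨K'.mul_mem hx hy, ?_⟩
        rw [hφm x hx y hy]
        exact R.add_mem hx' hy'
      inv_mem' := by
        rintro x ⟨hx, hx'⟩
        refine ⟨K'.inv_mem hx, ?_⟩
        rw [hφi x hx]
        exact R.neg_mem hx' }
  have hmWe : ∀ x, x ∈ We ↔ x ∈ K' ∧ φ x ∈ R := fun x => Iff.rfl
  have hWWe : W ≤ We := by
    intro x hx
    refine ⟨hWK hx, ?_⟩
    rw [hφW x hx]
    exact R.zero_mem
  have hWeK' : We ≤ K' := fun x hx => hx.1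
  have hWeK : ∀ g ∈ K, ∀ x ∈ We, g * x * g⁻¹ ∈ We := by
    intro g hg' x hx
    refine ⟨hKc g hg' x hx.1, ?_⟩
    obtain ⟨i, κ, hκ', rfl⟩ := L.gen g hg'
    have h1 : γ ^ i * κ * x * (γ ^ i * κ)⁻¹ = γ ^ i * (κ * x * κ⁻¹) * (γ ^ i)⁻¹ := by group
    rw [h1, hΓi i _ (hKc κ (hK'K hκ') x hx.1), hκ κ hκ' x hx.1]
    exact hRΓ i _ hx.2
  have hWeh : ∀ x ∈ We, h * x * h⁻¹ ∈ We := by
    intro x hx
    refine ⟨L.hK' x hx.1, ?_⟩
    rw [hH x hx.1]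
    exact hRH _ hx.2
  -- powers of `γ ^ q₀ κ`
  have hpowB : ∀ κ ∈ K', ∀ i : ℕ, ∃ β ∈ K', (γ ^ q₀ * κ) ^ i = β * γ ^ (q₀ * i) ∧
      φ β = (∑ j ∈ Finset.range i, Γ ^ (q₀ * (j + 1))) (φ κ) := by
    intro κ hκ' i
    induction i with
    | zero => exact ⟨1, K'.one_mem, by simp, by simp [hφ1]⟩
    | succ i ih =>
      obtain ⟨β, hβ, h1, h2⟩ := ih
      have h3 : γ ^ (q₀ * (i + 1)) * κ * (γ ^ (q₀ * (i + 1)))⁻¹ ∈ K' :=
        hKc _ (K.pow_mem L.memγ _) κ hκ'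
      refine ⟨β * (γ ^ (q₀ * (i + 1)) * κ * (γ ^ (q₀ * (i + 1)))⁻¹), K'.mul_mem hβ h3, ?_, ?_⟩
      · rw [pow_succ, h1, mul_add, pow_add, mul_one]
        group
      · rw [hφm β hβ _ h3, h2, hΓi _ κ hκ', Finset.sum_range_succ, LinearMap.add_apply]
  have hcor : ∀ κ ∈ K', ∃ β ∈ We, (γ ^ q₀ * κ) ^ p ^ (b - a) = β * γ ^ q := by
    intro κ hκ'
    obtain ⟨β, hβ, h1, h2⟩ := hpowB κ hκ' (p ^ (b - a))
    refine ⟨β, ⟨hβ, ?_⟩, ?_⟩
    · have h3 := end_sum Γ a b hab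
      rw [← ha] at h3
      rw [h2, h3, ← hTdef, ← hb, ← he]
      refine ⟨(Γ ^ q₀) (φ κ), ?_⟩
      rw [← Module.End.mul_apply, ← hΓT]
    · rw [h1, hqm]
  obtain ⟨w₀, τ₀, hτ₀I, κ₀, hκ₀, hτ₀⟩ := L.ex
  obtain ⟨b₀, hb₀, hρ0⟩ := hcor κ₀ hκ₀
  obtain ⟨ρ, hρdef⟩ : ∃ ρ : 𝔾, ρ = τ₀ ^ p ^ (b - a) := ⟨_, rfl⟩
  have hρ : ρ = b₀ * γ ^ q := by rw [hρdef, hτ₀, hρ0]
  have hρI : ρ ∈ I w₀ := by
    rw [hρdef]
    exact (I w₀).pow_mem hτ₀I _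
  have hρR : ρ ∈ KR := by
    rw [hρ]
    exact KR.mul_mem (L.le1 (hWeK' hb₀)) L.memq
  have hρK : ρ ∈ K := L.le2 hρR
  let U : Subgroup 𝔾 :=
    { carrier := {x | ∃ i : ℤ, ∃ w ∈ We, x = ρ ^ i * w}
      one_mem' := ⟨0, 1, We.one_mem, by simp⟩
      mul_mem' := by
        rintro _ _ ⟨i, w, hw, rfl⟩ ⟨j, w', hw', rfl⟩
        refine ⟨i + j, ρ ^ (-j) * w * (ρ ^ (-j))⁻¹ * w', We.mul_mem
          (hWeK _ (K.zpow_mem hρK _) w hw) hw', ?_⟩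
        group
      inv_mem' := by
        rintro _ ⟨i, w, hw, rfl⟩
        refine ⟨-i, ρ ^ i * w⁻¹ * (ρ ^ i)⁻¹, hWeK _ (K.zpow_mem hρK _) _ (We.inv_mem hw), ?_⟩
        group }
  have hWeU : We ≤ U := fun w hw => ⟨0, w, hw, by simp⟩
  have hρU : ρ ∈ U := ⟨1, 1, We.one_mem, by simp⟩
  have hUR : U ≤ KR := by
    rintro _ ⟨i, w, hw, rfl⟩
    exact KR.mul_mem (KR.zpow_mem hρR _) (L.le1 (hWeK' hw))
  have hUK' : U ⊓ K' = We := by
    apply le_antisymm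
    · rintro _ ⟨⟨i, w, hw, rfl⟩, hx⟩
      have h1 : ρ ^ i ∈ K' := by
        have h2 := K'.mul_mem hx (K'.inv_mem (hWeK' hw))
        rwa [mul_inv_cancel_right] at h2
      exact We.mul_mem (hWWe (hg (Or.inr ⟨h1, w₀, (I w₀).zpow_mem hρI i⟩))) hw
    · exact le_inf hWeU hWeK'
  -- decomposition of `KR`
  have hdec : ∀ x ∈ KR, ∃ i : ℕ, ∃ y ∈ K', x = ρ ^ i * y := by
    intro x hx
    obtain ⟨i, κ, hκ', h1⟩ := L.genR x hx
    obtain ⟨y, hy, h2⟩ := pow_conj_form hKc L.memγ (hWeK' hb₀) q i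
    refine ⟨i, y⁻¹ * κ, K'.mul_mem (K'.inv_mem hy) hκ', ?_⟩
    rw [hρ, h2, h1]
    group
  have hρc : ∀ y ∈ K', ⁅ρ, y⁆ ∈ We := by
    intro y hy
    refine ⟨hcomK ρ hρK y hy, ?_⟩
    have h1 : ⁅ρ, y⁆ = b₀ * (γ ^ q * y * (γ ^ q)⁻¹) * b₀⁻¹ * y⁻¹ := by
      rw [commutatorElement_def, hρ]
      group
    have h2 : γ ^ q * y * (γ ^ q)⁻¹ ∈ K' := hKc _ (K.pow_mem L.memγ _) y hy
    rw [h1, hφm _ (hKc b₀ (hK'K (hWeK' hb₀)) _ h2) _ (K'.inv_mem hy), hκ b₀ (hWeK' hb₀) _ h2,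
      hΓi q y hy, hφi y hy]
    refine ⟨(T ^ q₀) (φ y), ?_⟩
    rw [← Module.End.mul_apply, ← pow_add]
    have h3 : e + q₀ = p ^ b := by
      have := L.le
      omega
    rw [h3, hTdef, ← end_pow, ← hb, LinearMap.sub_apply, Module.End.one_apply]
    abel
  -- the quotient `K / We`
  have hN : (We.subgroupOf K).Normal := by
    refine ⟨fun x hx g => ?_⟩
    rw [mem_subgroupOf] at hx ⊢
    exact hWeK g g.2 _ hx
  let π : K →* K ⧸ We.subgroupOf K := QuotientGroup.mk' (We.subgroupOf K)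
  have hπ : ∀ x : K, π x = 1 ↔ (x : 𝔾) ∈ We := by
    intro x
    have h1 : π x = 1 ↔ x ∈ We.subgroupOf K := QuotientGroup.eq_one_iff x
    rw [h1, mem_subgroupOf]
  have hcm : ∀ x y : K, ⁅(x : 𝔾), (y : 𝔾)⁆ ∈ We → Commute (π x) (π y) := by
    intro x y hxy
    rw [← commutatorElement_eq_one_iff_commute, ← map_commutatorElement, hπ]
    exact hxy
  have hcr : ∀ y (hy : y ∈ K'), Commute (π ⟨ρ, hρK⟩) (π ⟨y, hK'K hy⟩) := fun y hy =>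
    hcm _ _ (hρc y hy)
  have hcy : ∀ y (hy : y ∈ K') z (hz : z ∈ K'), Commute (π ⟨y, hK'K hy⟩) (π ⟨z, hK'K hz⟩) :=
    fun y hy z hz => hcm _ _ (hWWe (comm_mem_of_gens hg hy hz))
  have hgens : gens p I KR ⊆ U := by
    rintro x ((⟨c, hc, rfl⟩ | ⟨c, hc, d, hd, rfl⟩) | ⟨hx, w, hw⟩)
    · obtain ⟨i, y, hy, rfl⟩ := hdec c hc
      have h2 : π (((⟨ρ, hρK⟩ : K) ^ (i * p))⁻¹ * ((⟨ρ, hρK⟩ : K) ^ i * ⟨y, hK'K hy⟩) ^ p) = 1 := by
        have h3 : π ⟨y, hK'K hy⟩ ^ p = 1 := by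
          rw [← map_pow, hπ]
          exact hWWe (pow_mem_of_gens hg hy)
        have h4 : Commute (π ⟨ρ, hρK⟩ ^ i) (π ⟨y, hK'K hy⟩) := (hcr y hy).pow_left i
        simp only [map_mul, map_inv, map_pow]
        rw [h4.mul_pow, h3, mul_one, ← pow_mul, inv_mul_cancel]
      rw [hπ] at h2
      have h3 : ((ρ ^ i * y) ^ p : 𝔾) = ρ ^ (i * p) * ((ρ ^ (i * p))⁻¹ * (ρ ^ i * y) ^ p) := by
        group
      show (ρ ^ i * y) ^ p ∈ U
      rw [h3]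
      exact U.mul_mem (U.pow_mem hρU _) (hWeU h2)
    · obtain ⟨i, y, hy, rfl⟩ := hdec c hc
      obtain ⟨j, z, hz, rfl⟩ := hdec d hd
      apply hWeU
      have h1 : Commute (π (⟨ρ, hρK⟩ ^ i * ⟨y, hK'K hy⟩)) (π (⟨ρ, hρK⟩ ^ j * ⟨z, hK'K hz⟩)) := by
        rw [map_mul, map_mul, map_pow, map_pow]
        refine Commute.mul_left (Commute.mul_right ?_ ?_) (Commute.mul_right ?_ ?_)
        · exact (Commute.refl _).pow_pow i j
        · exact (hcr z hz).pow_left i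
        · exact (hcr y hy).symm.pow_right j
        · exact hcy y hy z hz
      rw [← commutatorElement_eq_one_iff_commute, ← map_commutatorElement, hπ] at h1
      exact h1
    · rcases L.ram w x hw hx with h1 | ⟨τ, hτI, κ, hκ', hτ⟩
      · exact hWeU (hWWe (hg (Or.inr ⟨h1, w, hw⟩)))
      · obtain ⟨b₁, hb₁, hτm⟩ := hcor κ hκ'
        rw [← hτ] at hτm
        have h1 : τ ^ p ^ (b - a) ∈ U := by
          have h2 : τ ^ p ^ (b - a) = b₁ * b₀⁻¹ * ρ := by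
            rw [hτm, hρ]
            group
          rw [h2]
          exact U.mul_mem (U.mul_mem (hWeU hb₁) (U.inv_mem (hWeU hb₀))) hρU
        obtain ⟨i, κ', hκ'', hσ⟩ := L.genR x hx
        obtain ⟨y, hy, h3⟩ := pow_conj_form hKc L.memγ (hWeK' hb₁) q i
        have h4 : x⁻¹ * (τ ^ p ^ (b - a)) ^ i ∈ K' := by
          rw [hτm, h3, hσ]
          have h5 : (γ ^ (q * i) * κ')⁻¹ * (γ ^ (q * i) * y) = κ'⁻¹ * y := by group
          rw [h5]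
          exact K'.mul_mem (K'.inv_mem hκ'') hy
        have h5 : x⁻¹ * (τ ^ p ^ (b - a)) ^ i ∈ I w :=
          (I w).mul_mem ((I w).inv_mem hw) ((I w).pow_mem ((I w).pow_mem hτI _) _)
        have h6 : x⁻¹ * (τ ^ p ^ (b - a)) ^ i ∈ U := hWeU (hWWe (hg (Or.inr ⟨h4, w, h5⟩)))
        have h7 : x = (τ ^ p ^ (b - a)) ^ i * (x⁻¹ * (τ ^ p ^ (b - a)) ^ i)⁻¹ := by group
        rw [h7]
        exact U.mul_mem (U.pow_mem h1 _) (U.inv_mem h6)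
  have hUh : ∀ x ∈ U, h * x * h⁻¹ ∈ U := by
    have h0 : h * ρ * h⁻¹ ∈ U := by
      obtain ⟨y, hy, h1⟩ := pow_conj_form hKc L.memγ L.comm 1 q₀
      have h2 : h * τ₀ * h⁻¹ = γ ^ q₀ * (y * (h * κ₀ * h⁻¹)) := by
        have h3 : h * γ * h⁻¹ = ⁅h, γ⁆ * γ ^ 1 := by
          rw [commutatorElement_def]
          group
        have h4 : h * τ₀ * h⁻¹ = (h * γ * h⁻¹) ^ q₀ * (h * κ₀ * h⁻¹) := by
          rw [conj_pow, hτ₀]
          group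
        rw [h4, h3, h1, one_mul]
        group
      obtain ⟨b₂, hb₂, h5⟩ := hcor _ (K'.mul_mem hy (L.hK' κ₀ hκ₀))
      have h6 : h * ρ * h⁻¹ = b₂ * b₀⁻¹ * ρ := by
        rw [hρdef, ← conj_pow, h2, h5, ← hρdef, hρ]
        group
      rw [h6]
      exact U.mul_mem (U.mul_mem (hWeU hb₂) (U.inv_mem (hWeU hb₀))) hρU
    rintro _ ⟨i, w, hw, rfl⟩
    have h1 : h * (ρ ^ i * w) * h⁻¹ = (h * ρ * h⁻¹) ^ i * (h * w * h⁻¹) := by
      rw [conj_zpow]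
      group
    rw [h1]
    exact U.mul_mem (U.zpow_mem h0 i) (hWeU (hWeh w hw))
  have hUf : ∀ x ∈ KR, ⁅h, x⁆ ∈ U → x ∈ U := by
    intro x hx hxU
    obtain ⟨i, y, hy, rfl⟩ := hdec x hx
    have hu : ρ ^ i ∈ U := U.pow_mem hρU i
    have h1 : ⁅h, y⁆ = (h * ρ ^ i * h⁻¹)⁻¹ * ⁅h, ρ ^ i * y⁆ * ρ ^ i := by
      rw [commutatorElement_def, commutatorElement_def]
      group
    have h2 : ⁅h, y⁆ ∈ U := by
      rw [h1]
      exact U.mul_mem (U.mul_mem (U.inv_mem (hUh _ hu)) hxU) hu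
    have h3 : ⁅h, y⁆ ∈ K' := by
      rw [commutatorElement_def]
      exact K'.mul_mem (L.hK' y hy) (K'.inv_mem hy)
    have h4 : ⁅h, y⁆ ∈ We := by
      rw [← hUK']
      exact ⟨h2, h3⟩
    have h5 : H (φ y) - φ y ∈ R := by
      have h6 := h4.2
      rw [commutatorElement_def, hφm _ (L.hK' y hy) _ (K'.inv_mem hy), hH y hy, hφi y hy,
        ← sub_eq_add_neg] at h6
      exact h6
    exact U.mul_mem hu (hWeU ⟨hy, fixed_mod H n hpn hHn hHf R hRH _ h5⟩)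
  -- indices
  have hKf : K'.relIndex KR ≠ 0 :=
    index_cyc hp.out.pos L.memq L.genR hs (fun x hx => hKc _ (K.pow_mem L.memγ _) x hx)
  have hWU : W ≤ U := hWWe.trans hWeU
  have hWR : W.relIndex KR ≠ 0 := by
    rw [← relIndex_mul_relIndex W K' KR hWK L.le1]
    exact mul_ne_zero hW0 hKf
  have hUR0 : U.relIndex KR ≠ 0 := by
    intro h1
    have h2 := relIndex_mul_relIndex W U KR hWU hUR
    rw [h1, mul_zero] at h2
    exact hWR h2.symm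
  have hUC : U.relIndex KR ≤ C :=
    hRel U hUR (Subgroup.isOpen_mono hWU hWo) hUR0 hgens hUh hUf
  have hfin : We.relIndex K' ≤ C := by
    rw [← hUK', inf_relIndex_right]
    exact (relIndex_le_of_le_right L.le1 hUR0).trans hUC
  refine ⟨We, hWWe, hWeK', ?_, hfin⟩
  intro x
  rw [hmWe, ← he]
  refine and_congr_right fun hx => ?_
  constructor
  · rintro ⟨v, hv⟩
    obtain ⟨y, hy, rfl⟩ := hφs v
    refine ⟨y, hy, ?_⟩
    obtain ⟨h1, h2⟩ := hTi e y hy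
    rw [← hφ0 _ (K'.mul_mem (K'.inv_mem h1) hx), hφm _ (K'.inv_mem h1) _ hx, hφi _ h1, h2, hv]
    abel
  · rintro ⟨y, hy, h3⟩
    refine ⟨φ y, ?_⟩
    obtain ⟨h1, h2⟩ := hTi e y hy
    rw [← hφ0 _ (K'.mul_mem (K'.inv_mem h1) hx), hφm _ (K'.inv_mem h1) _ hx, hφi _ h1, h2] at h3
    exact (neg_add_eq_zero.1 h3)

end Pool.Agent.Run7.h429.UM
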