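import Pool.Agent.Run7.h594.UM.P2

/-!
# UM, piece Q2, preparations (helper429)
-/

set_option autoImplicit false

namespace Pool.Agent.Run7.h429.UM

open Subgroup Pool.Agent.Q60.MU Pool.Agent.Run7.h759.UM Polynomial
open Pool.Agent.Run7.h594.UM (comm_mem_of_gens pow_mem_of_gens normal_of_gens)
open scoped commutatorElement

theorem poly_sum (p : ℕ) [hp : Fact p.Prime] (a b : ℕ) (hab : a ≤ b) :
    (∑ j ∈ Finset.range (p ^ (b - a)), (X : (ZMod p)[X]) ^ (p ^ a * (j + 1))) =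
      X ^ p ^ a * (X - 1) ^ (p ^ b - p ^ a) := by
  have hpos : 0 < p ^ (b - a) := pow_pos hp.out.pos _
  have h1 : (X ^ p ^ a - 1 : (ZMod p)[X]) = (X - 1) ^ p ^ a := by
    rw [sub_pow_char_pow, one_pow]
  have hne : (X ^ p ^ a - 1 : (ZMod p)[X]) ≠ 0 := by
    rw [h1]
    exact pow_ne_zero _ (X_sub_C_ne_zero (1 : ZMod p))
  have h2 : (∑ j ∈ Finset.range (p ^ (b - a)), ((X : (ZMod p)[X]) ^ p ^ a) ^ j) =
      (X - 1) ^ (p ^ b - p ^ a) := by
    apply mul_right_cancel₀ hne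
    rw [geom_sum_mul]
    have h3 : ((X ^ p ^ a) ^ p ^ (b - a) - 1 : (ZMod p)[X]) = (X ^ p ^ a - 1) ^ p ^ (b - a) := by
      rw [sub_pow_char_pow, one_pow]
    have h4 : p ^ a * p ^ (b - a) = p ^ b := by
      rw [← pow_add]
      congr 1
      omega
    have h5 : p ^ a ≤ p ^ b := Nat.pow_le_pow_right hp.out.pos hab
    rw [h3, h1, ← pow_mul, h4, ← pow_add, Nat.sub_add_cancel h5]
  rw [← h2, Finset.mul_sum]
  refine Finset.sum_congr rfl fun j _ => ?_
  rw [← pow_mul, ← pow_add]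
  congr 1
  ring

variable {p : ℕ} [hp : Fact p.Prime] {V : Type} [AddCommGroup V] [Module (ZMod p) V]

theorem end_sum (Γ : Module.End (ZMod p) V) (a b : ℕ) (hab : a ≤ b) :
    (∑ j ∈ Finset.range (p ^ (b - a)), Γ ^ (p ^ a * (j + 1))) =
      Γ ^ p ^ a * (Γ - 1) ^ (p ^ b - p ^ a) := by
  have h := congrArg (aeval Γ) (poly_sum p a b hab)
  simpa using h

theorem end_pow (Γ : Module.End (ZMod p) V) (b : ℕ) : Γ ^ p ^ b - 1 = (Γ - 1) ^ p ^ b := by
  have h1 : (X ^ p ^ b - 1 : (ZMod p)[X]) = (X - 1) ^ p ^ b := by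
    rw [sub_pow_char_pow, one_pow]
  have h := congrArg (aeval Γ) h1
  simpa using h

/-- no fixed vectors modulo a stable subspace -/
theorem fixed_mod (H : Module.End (ZMod p) V) (n : ℕ) (hn : ¬ p ∣ n) (hH : H ^ n = 1)
    (hf : ∀ v, H v = v → v = 0) (R : Submodule (ZMod p) V) (hR : ∀ v ∈ R, H v ∈ R) (v : V)
    (hv : H v - v ∈ R) : v ∈ R := by
  have h1 : ∀ i : ℕ, (H ^ i) v - v ∈ R := by
    intro i
    induction i with
    | zero => simp
    | succ i ih =>
      have h2 : (H ^ (i + 1)) v - v = H ((H ^ i) v - v) + (H v - v) := by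
        rw [pow_succ', Module.End.mul_apply, map_sub]
        abel
      rw [h2]
      exact R.add_mem (hR _ ih) hv
  have h2 : (∑ i ∈ Finset.range n, (H ^ i) v) - n • v ∈ R := by
    have h3 : (∑ i ∈ Finset.range n, (H ^ i) v) - n • v =
        ∑ i ∈ Finset.range n, ((H ^ i) v - v) := by
      rw [Finset.sum_sub_distrib, Finset.sum_const, Finset.card_range]
    rw [h3]
    exact R.sum_mem fun i _ => h1 i
  have h3 : (∑ i ∈ Finset.range n, (H ^ i) v) = 0 := by
    apply hf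
    rw [map_sum]
    have h4 : ∀ i, H ((H ^ i) v) = (H ^ (i + 1)) v := by
      intro i
      rw [pow_succ', Module.End.mul_apply]
    simp_rw [h4]
    have h5 := Finset.sum_range_succ' (fun i => (H ^ i) v) n
    have h6 := Finset.sum_range_succ (fun i => (H ^ i) v) n
    rw [hH] at h6
    rw [h6] at h5
    simp only [pow_zero] at h5
    exact (add_right_cancel h5).symm
  rw [h3, zero_sub, neg_mem_iff] at h2
  have h4 : (n : ZMod p) ≠ 0 := by
    rw [Ne, ZMod.natCast_eq_zero_iff]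
    exact hn
  have h5 : v = (n : ZMod p)⁻¹ • (n • v) := by
    rw [← Nat.cast_smul_eq_nsmul (ZMod p) n v, smul_smul, inv_mul_cancel₀ h4, one_smul]
  rw [h5]
  exact R.smul_mem _ h2

/-- the quotient `K' / W` as a vector space -/
theorem setup {𝔾 : Type} [Group 𝔾] (p : ℕ) [hp : Fact p.Prime] {Ω : Type} (I : Ω → Subgroup 𝔾)
    (K W : Subgroup 𝔾) (hWK : W ≤ K) (hg : gens p I K ⊆ W) :
    ∃ (V : Type) (_ : AddCommGroup V) (_ : Module (ZMod p) V) (φ : 𝔾 → V),
      (∀ x ∈ K, ∀ y ∈ K, φ (x * y) = φ x + φ y) ∧ (∀ x ∈ K, φ x = 0 ↔ x ∈ W) ∧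
      (∀ v, ∃ x ∈ K, φ x = v) ∧
      ∀ g : 𝔾, (∀ x ∈ K, g * x * g⁻¹ ∈ K) → (∀ x ∈ W, g * x * g⁻¹ ∈ W) →
        ∃ G : Module.End (ZMod p) V, ∀ x ∈ K, φ (g * x * g⁻¹) = G (φ x) := by
  classical
  have hN : (W.subgroupOf K).Normal := normal_of_gens hWK hg
  have hcomm : ∀ a b : K ⧸ W.subgroupOf K, a * b = b * a := by
    intro a b
    obtain ⟨x, rfl⟩ := QuotientGroup.mk_surjective a
    obtain ⟨y, rfl⟩ := QuotientGroup.mk_surjective b
    rw [← QuotientGroup.mk_mul, ← QuotientGroup.mk_mul, QuotientGroup.eq, mem_subgroupOf]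
    have h1 : (((x * y)⁻¹ * (y * x) : K) : 𝔾) = ⁅((y : 𝔾))⁻¹, ((x : 𝔾))⁻¹⁆ := by
      rw [commutatorElement_def]
      push_cast
      group
    rw [h1]
    exact comm_mem_of_gens hg (K.inv_mem y.2) (K.inv_mem x.2)
  let cg : CommGroup (K ⧸ W.subgroupOf K) :=
    { (inferInstance : Group (K ⧸ W.subgroupOf K)) with mul_comm := hcomm }
  let mk : K →* K ⧸ W.subgroupOf K := QuotientGroup.mk' (W.subgroupOf K)
  have hmks : Function.Surjective mk := QuotientGroup.mk'_surjective _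
  have hmk1 : ∀ x : K, mk x = 1 ↔ (x : 𝔾) ∈ W := by
    intro x
    have h1 : mk x = 1 ↔ x ∈ W.subgroupOf K := QuotientGroup.eq_one_iff x
    rw [h1, mem_subgroupOf]
  have hpV : ∀ x : Additive (K ⧸ W.subgroupOf K), p • x = 0 := by
    intro x
    obtain ⟨y, hy⟩ := hmks x.toMul
    have h1 : x = Additive.ofMul (mk y) := by rw [hy]; rfl
    rw [h1, ← ofMul_pow, ← map_pow]
    rw [show mk (y ^ p) = 1 from (hmk1 _).2 (by
      push_cast
      exact pow_mem_of_gens hg y.2)]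
    rfl
  let mo : Module (ZMod p) (Additive (K ⧸ W.subgroupOf K)) := AddCommGroup.zmodModule hpV
  let φ : 𝔾 → Additive (K ⧸ W.subgroupOf K) := fun x =>
    if hx : x ∈ K then Additive.ofMul (mk ⟨x, hx⟩) else 0
  have hφ : ∀ x (hx : x ∈ K), φ x = Additive.ofMul (mk ⟨x, hx⟩) := fun x hx => dif_pos hx
  refine ⟨Additive (K ⧸ W.subgroupOf K), inferInstance, mo, φ, ?_, ?_, ?_, ?_⟩
  · intro x hx y hy
    rw [hφ _ (K.mul_mem hx hy), hφ x hx, hφ y hy, ← ofMul_mul, ← map_mul]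
    rfl
  · intro x hx
    rw [hφ x hx]
    exact hmk1 ⟨x, hx⟩
  · intro v
    obtain ⟨y, hy⟩ := hmks v.toMul
    refine ⟨y, y.2, ?_⟩
    rw [hφ _ y.2]
    show Additive.ofMul (mk y) = v
    rw [hy]
    rfl
  · intro g hgK hgW
    let c : K →* K :=
      { toFun := fun x => ⟨g * x * g⁻¹, hgK x x.2⟩
        map_one' := by
          apply Subtype.ext
          simp
        map_mul' := fun x y => by
          apply Subtype.ext
          push_cast
          group }
    let c' : (K ⧸ W.subgroupOf K) →* (K ⧸ W.subgroupOf K) :=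
      QuotientGroup.map _ _ c (by
        intro x hx
        rw [mem_subgroupOf] at hx
        rw [mem_comap, mem_subgroupOf]
        exact hgW _ hx)
    have hc' : ∀ x : K, c' (mk x) = mk (c x) := fun x => rfl
    refine ⟨AddMonoidHom.toZModLinearMap p (MonoidHom.toAdditive c'), ?_⟩
    intro x hx
    rw [hφ _ (hgK x hx), hφ x hx]
    rfl

end Pool.Agent.Run7.h429.UM
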